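import Pool.Agent.V11281.F4.Yam

/-!
# `F₄(X)` is a `k_ℝ`-space for metrizable `X` with compact derived set
-/

set_option autoImplicit false

open Set Topology Filter
open Pool.Agent.V11281.F4

namespace Pool.Agent.Results.MP_b47bfe_gt.FourKR

universe u

/-- `k_ℝ`-spaces -/
def IsKR (Y : Type u) [TopologicalSpace Y] : Prop :=
  ∀ f : Y → ℝ, (∀ K : Set Y, IsCompact K → ContinuousOn f K) → Continuous f

lemma isKR_of_frechet (Y : Type u) [TopologicalSpace Y] [FrechetUrysohnSpace Y] : IsKR Y := by
  intro f hf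
  apply SeqContinuous.continuous
  intro x a hx
  have h1 := hf _ hx.isCompact_insert_range
  have h2 : Tendsto f (𝓝[insert a (range x)] a) (𝓝 (f a)) := h1 a (mem_insert _ _)
  refine h2.comp (tendsto_nhdsWithin_iff.2 ⟨hx, ?_⟩)
  exact Eventually.of_forall fun n => Or.inr ⟨n, rfl⟩

/-- For every metrizable space `X` whose set of non-isolated points is compact, `F₄(X)` is a
Fréchet–Urysohn space and a `k_ℝ`-space. -/
theorem result (X : Type u) [TopologicalSpace X] [TopologicalSpace.MetrizableSpace X]
    (hX : IsCompact {x : X | ¬ IsOpen ({x} : Set X)}) :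
    FrechetUrysohnSpace (Fn X 4) ∧ IsKR (Fn X 4) := by
  classical
  letI : MetricSpace X := TopologicalSpace.metrizableSpaceMetric X
  have key := @Yam.yamada X _ hX
  have h : FrechetUrysohnSpace (Fn X 4) := by
    constructor
    intro s a ha
    have h1 : (a : FT X) ∈ closure (Subtype.val '' s) := closure_subtype.1 ha
    have h2 : Subtype.val '' s ⊆ Fn X 4 := by
      rintro _ ⟨w, -, rfl⟩
      exact w.2
    obtain ⟨t, ht, hta⟩ := key h2 h1
    choose t' ht' htt using ht
    refine ⟨t', ht', ?_⟩
    rw [Topology.IsInducing.subtypeVal.tendsto_nhds_iff]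
    exact hta.congr fun n => (htt n).symm
  exact ⟨h, isKR_of_frechet _⟩

end Pool.Agent.Results.MP_b47bfe_gt.FourKR
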